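import Pool.Agent.Q308.TG.OneT

/-!
Almost all families of integer combinations of a spanning family are generic.
-/

set_option autoImplicit false
set_option linter.unusedSectionVars false

open Polynomial Pool.Agent.Q126.TD Pool.Agent.Q308.TC Filter Topology

namespace Pool.Agent.Q308.TG

open Pool.Agent.Q308.TW

variable {κ ι : Type} [Fintype κ] [Fintype ι] [DecidableEq ι]

/-- the family whose combinations are the differences -/
noncomputable def dfam {k : Type} [Field k] (b : κ → k[X]) (i j : ι) (x : ι × κ) : k[X] :=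
  (if x.1 = i then b x.2 else 0) - (if x.1 = j then b x.2 else 0)

theorem comb_dfam {k : Type} [Field k] (b : κ → k[X]) (i j : ι) (v : ι × κ → ℤ) :
    comb (dfam b i j) v = fam b v i - fam b v j := by
  unfold comb dfam fam comb
  rw [Fintype.sum_prod_type]
  simp only [mul_sub, Finset.sum_sub_distrib]
  have h : ∀ i : ι, ∑ x : ι, ∑ y : κ, C ((v (x, y) : ℤ) : k) * (if x = i then b y else 0) =
      ∑ y : κ, C ((v (i, y) : ℤ) : k) * b y := by
    intro i
    rw [Finset.sum_eq_single i]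
    · simp only [if_true]
    · intro x _ hx
      refine Finset.sum_eq_zero fun y _ => ?_
      rw [if_neg hx, mul_zero]
    · intro h
      exact absurd (Finset.mem_univ _) h
  rw [h i, h j]

theorem spans_dfam {k : Type} [Field k] {N : ℕ} {b : κ → k[X]} (hb : Spans N b) {i j : ι}
    (hij : i ≠ j) : Spans N (dfam b i j) := by
  refine ⟨?_, fun m => ?_⟩
  · rintro ⟨x, y⟩
    unfold dfam
    refine (natDegree_sub_le _ _).trans (max_le ?_ ?_)
    · split_ifs
      · exact hb.1 y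
      · simp
    · split_ifs
      · exact hb.1 y
      · simp
  · obtain ⟨c, hc⟩ := hb.2 m
    refine ⟨fun x => if x.1 = i then c x.2 else 0, ?_⟩
    rw [← hc, Fintype.sum_prod_type, Finset.sum_eq_single i]
    · refine Finset.sum_congr rfl fun y _ => ?_
      unfold dfam
      simp only [if_true]
      rw [if_neg hij, sub_zero]
    · intro x _ hx
      refine Finset.sum_eq_zero fun y _ => ?_
      simp only
      rw [if_neg hx, C_0, zero_mul]
    · intro h
      exact absurd (Finset.mem_univ _) h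

theorem FF_add {R : Type} [CommRing R] (S : Finset ι) (E E' : ι → ι → ℕ) (w : ι → R) :
    FF S (fun k l => E k l + E' k l) w = FF S E w * FF S E' w := by
  unfold FF
  rw [← Finset.prod_mul_distrib]
  refine Finset.prod_congr rfl fun k _ => ?_
  rw [← Finset.prod_mul_distrib]
  exact Finset.prod_congr rfl fun l _ => pow_add _ _ _

theorem FF_single {R : Type} [CommRing R] {S : Finset ι} {k l : ι} (hk : k ∈ S) (hl : l ∈ S)
    (hkl : k ≠ l) (w : ι → R) :
    FF S (fun k' l' => if k' = k ∧ l' = l then 1 else 0) w = w k - w l := by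
  unfold FF
  rw [Finset.prod_eq_single_of_mem k hk, Finset.prod_eq_single_of_mem l
    (Finset.mem_erase.2 ⟨hkl.symm, hl⟩)]
  · simp
  · intro m _ hm
    simp [hm]
  · intro m _ hm
    refine Finset.prod_eq_one fun l' _ => ?_
    simp [hm]

/-- **Almost all families.** -/
theorem all_T {k : Type} [Field k] [CharZero k] (hk : FG k) {N : ℕ} (hN : 4 ≤ N) {b : κ → k[X]}
    (hb : Spans N b) :
    Full {v : ι × κ → ℤ | (∀ i j : ι, i ≠ j → Irreducible (fam b v i - fam b v j) ∧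
        (fam b v i - fam b v j).natDegree = N) ∧
      ∀ i j : ι, i ≠ j → ∀ (c : k) (E : ι → ι → ℕ) (z : k[X]), c ≠ 0 →
        fam b v i - fam b v j ∣ C c * FF (Finset.univ.erase j) E (fam b v) - z ^ 2 →
        ∀ k0 l0 : ι, k0 ≠ j → l0 ≠ j → k0 ≠ l0 → Even (E k0 l0 + E l0 k0)} := by
  classical
  obtain ⟨M, rfl⟩ : ∃ M, N = M + 2 := ⟨N - 2, by omega⟩
  have hM : 2 ≤ M := by omega
  -- the differences
  let E1 : Finset (ι × ι) := Finset.univ.filter fun x => x.1 ≠ x.2
  let S1 : ι × ι → Set (ι × κ → ℤ) := fun x => {v | Irreducible (fam b v x.1 - fam b v x.2) ∧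
        (fam b v x.1 - fam b v x.2).natDegree = M + 2}
  have h1 : ∀ x ∈ E1, Full (S1 x) := by
    intro x hx
    have hx' : x.1 ≠ x.2 := (Finset.mem_filter.1 hx).2
    refine (span_full hk (by omega : 0 < M + 2) (spans_dfam hb hx') (irreducible_X)).mono ?_
    rintro v ⟨h1, h2⟩
    rw [X_comp, comb_dfam] at h1
    rw [comb_dfam] at h2
    exact ⟨h1, h2⟩
  -- the exponents
  let T := (ι × ι) × (ι × ι) × (ι → ι → Fin 2)
  let E2 : Finset T := Finset.univ.filter fun x => x.1.1 ≠ x.1.2 ∧ x.2.1.1 ≠ x.1.2 ∧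
    x.2.1.2 ≠ x.1.2 ∧ x.2.1.1 ≠ x.2.1.2 ∧
    Odd ((x.2.2 x.2.1.1 x.2.1.2 : ℕ) + (x.2.2 x.2.1.2 x.2.1.1 : ℕ))
  let S2 : T → Set (ι × κ → ℤ) := fun x => {v | ∀ (c : k) (z : k[X]), c ≠ 0 →
      ¬ fam b v x.1.1 - fam b v x.1.2 ∣
        C c * FF (Finset.univ.erase x.1.2) (fun i j => (x.2.2 i j : ℕ)) (fam b v) - z ^ 2}
  have h2 : ∀ x ∈ E2, Full (S2 x) := by
    intro x hx
    obtain ⟨g1, g2, g3, g4, g5⟩ := (Finset.mem_filter.1 hx).2
    exact one_T hk hM hb g1 (E := fun i j => (x.2.2 i j : ℕ)) g2 g3 g4 g5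
  refine ((full_biInter E1 S1 h1).inter (full_biInter E2 S2 h2)).mono ?_
  rintro v ⟨hv1, hv2⟩
  have hv1' : ∀ x ∈ E1, v ∈ S1 x := hv1
  have hv2' : ∀ x ∈ E2, v ∈ S2 x := hv2
  have hirr : ∀ i j : ι, i ≠ j → Irreducible (fam b v i - fam b v j) ∧
        (fam b v i - fam b v j).natDegree = M + 2 := fun i j hij =>
    hv1' (i, j) (Finset.mem_filter.2 ⟨Finset.mem_univ _, hij⟩)
  refine ⟨hirr, ?_⟩
  intro i j hij c E z hc hd k0 l0 hk0 hl0 hkl
  set D := fam b v i - fam b v j with hD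
  have hDi : Irreducible D := (hirr i j hij).1
  -- `D` divides no other difference
  have hnd : ∀ k1 l1 : ι, k1 ≠ j → l1 ≠ j → k1 ≠ l1 → ¬ D ∣ fam b v k1 - fam b v l1 := by
    intro k1 l1 hkj hlj hkl' hdd
    let r : ι → ι → Fin 2 := fun k' l' => if k' = k1 ∧ l' = l1 then 1 else 0
    have hr : ∀ k' l', ((r k' l' : Fin 2) : ℕ) = if k' = k1 ∧ l' = l1 then 1 else 0 := by
      intro k' l'
      show (((if k' = k1 ∧ l' = l1 then 1 else 0) : Fin 2) : ℕ) = _
      split_ifs <;> rfl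
    have hmem : ((i, j), (k1, l1), r) ∈ E2 := by
      refine Finset.mem_filter.2 ⟨Finset.mem_univ _, hij, hkj, hlj, hkl', ?_⟩
      show Odd ((r k1 l1 : ℕ) + (r l1 k1 : ℕ))
      rw [hr, hr, if_pos ⟨rfl, rfl⟩, if_neg (fun h => hkl' h.1.symm)]
      exact odd_one
    have h3 := hv2' _ hmem (1 : k) 0 one_ne_zero
    apply h3
    show D ∣ _
    have h4 : FF (Finset.univ.erase j) (fun i j => ((r i j : Fin 2) : ℕ)) (fam b v) =
        fam b v k1 - fam b v l1 := by
      simp only [hr]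
      exact FF_single (Finset.mem_erase.2 ⟨hkj, Finset.mem_univ _⟩)
        (Finset.mem_erase.2 ⟨hlj, Finset.mem_univ _⟩) hkl' _
    show D ∣ C 1 * FF (Finset.univ.erase j) (fun i j => ((r i j : Fin 2) : ℕ)) (fam b v) - 0 ^ 2
    rw [h4, C_1, one_mul, zero_pow two_ne_zero, sub_zero]
    exact hdd
  by_contra hne
  rw [Nat.not_even_iff_odd] at hne
  let r : ι → ι → Fin 2 := fun k' l' => ⟨E k' l' % 2, Nat.mod_lt _ two_pos⟩
  have hmem : ((i, j), (k0, l0), r) ∈ E2 := by
    refine Finset.mem_filter.2 ⟨Finset.mem_univ _, hij, hk0, hl0, hkl, ?_⟩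
    show Odd (E k0 l0 % 2 + E l0 k0 % 2)
    rw [Nat.odd_iff] at hne ⊢
    omega
  have h3 := hv2' _ hmem
  -- the square part
  set S := (Finset.univ : Finset ι).erase j with hS
  set W := FF S (fun k' l' => E k' l' / 2) (fam b v) with hW
  have hWD : ¬ D ∣ W := by
    intro h4
    rw [hW] at h4
    unfold FF at h4
    obtain ⟨k1, hk1, h5⟩ := (Prime.dvd_finsetProd_iff hDi.prime _).1 h4
    obtain ⟨l1, hl1, h6⟩ := (Prime.dvd_finsetProd_iff hDi.prime _).1 h5
    refine hnd k1 l1 (Finset.ne_of_mem_erase hk1) (Finset.ne_of_mem_erase (Finset.mem_of_mem_erase hl1))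
      (Finset.ne_of_mem_erase hl1).symm (hDi.prime.dvd_of_dvd_pow h6)
  obtain ⟨s, V, hsV⟩ := (hDi.coprime_iff_not_dvd).2 hWD
  set P' := FF S (fun k' l' => ((r k' l' : Fin 2) : ℕ)) (fam b v) with hP'
  have h5 : FF S E (fam b v) = P' * W ^ 2 := by
    have e1 : E = fun k' l' => ((r k' l' : Fin 2) : ℕ) + (E k' l' / 2 + E k' l' / 2) := by
      funext k' l'
      show E k' l' = E k' l' % 2 + (E k' l' / 2 + E k' l' / 2)
      omega
    conv_lhs => rw [e1]
    rw [FF_add S (fun k' l' => ((r k' l' : Fin 2) : ℕ)) (fun k' l' => E k' l' / 2 + E k' l' / 2),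
      FF_add S (fun k' l' => E k' l' / 2) (fun k' l' => E k' l' / 2), ← hP', ← hW, sq]
  refine h3 c (z * V) hc ?_
  show D ∣ C c * P' - (z * V) ^ 2
  rw [h5] at hd
  have h6 : D ∣ 1 - (V * W) ^ 2 := by
    have h7 : D ∣ 1 - V * W := ⟨s, by linear_combination (-1 : k[X]) * hsV⟩
    refine h7.trans ⟨1 + V * W, by ring⟩
  have h7 : C c * P' - (z * V) ^ 2 =
      C c * P' * (1 - (V * W) ^ 2) + V ^ 2 * (C c * (P' * W ^ 2) - z ^ 2) := by
    ring
  rw [h7]
  exact dvd_add (dvd_mul_of_dvd_right h6 _) (dvd_mul_of_dvd_right hd _)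

end Pool.Agent.Q308.TG
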