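import Pool.Agent.Q308.TG.Ndim
import Pool.Agent.Q308.TW.Cub

/-!
Products of equidistributed maps, and the number of the families of polynomials modulo `p` with two
common values of a difference and a nonsquare product of values.
-/

set_option autoImplicit false
set_option linter.unusedSectionVars false

open Polynomial Pool.Agent.Q126.TD

namespace Pool.Agent.Q308.TG

section block

variable {I X Y A : Type} [Fintype I] [Fintype X] [Fintype Y]

/-- families of vectors -/
theorem block_count (q : X → Y) (e : X ≃ A × Y) (he : ∀ x, (e x).2 = q x) (y0 : Y)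
    (G : Set (I → Y)) {c : ℝ} (hG : c * (Fintype.card Y : ℝ) ^ Fintype.card I ≤ (G.ncard : ℝ)) :
    c * (Fintype.card X : ℝ) ^ Fintype.card I ≤
      (({w : I → X | (fun i => q (w i)) ∈ G} : Set (I → X)).ncard : ℝ) := by
  classical
  have hA : Finite A := by
    have h1 : Finite (A × Y) := Finite.of_equiv _ e
    exact Finite.of_injective (fun a : A => (a, y0)) fun a b h => congrArg Prod.fst h
  let E : (I → X) ≃ (I → A) × (I → Y) :=
    (Equiv.arrowCongr (Equiv.refl I) e).trans (Equiv.arrowProdEquivProdArrow I (fun _ => A) (fun _ => Y))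
  have hE : ∀ w, (E w).2 = fun i => q (w i) := by
    intro w
    funext i
    show (e (w i)).2 = _
    rw [he]
  have h1 : Nat.card (I → A) * Fintype.card Y ^ Fintype.card I =
      Fintype.card X ^ Fintype.card I := by
    have h2 := Nat.card_congr E
    rw [Nat.card_prod, Nat.card_eq_fintype_card (α := I → X), Fintype.card_fun,
      Nat.card_eq_fintype_card (α := I → Y), Fintype.card_fun] at h2
    exact h2.symm
  have h2 : (({w : I → X | (fun i => q (w i)) ∈ G} : Set (I → X))).ncard =
      Nat.card (I → A) * G.ncard := by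
    have h3 : E '' {w : I → X | (fun i => q (w i)) ∈ G} = Set.univ ×ˢ G := by
      ext x
      constructor
      · rintro ⟨w, hw, rfl⟩
        refine ⟨trivial, ?_⟩
        rw [hE]
        exact hw
      · rintro ⟨-, hx⟩
        refine ⟨E.symm x, ?_, E.apply_symm_apply x⟩
        show (fun i => q (E.symm x i)) ∈ G
        rw [← hE, E.apply_symm_apply]
        exact hx
    rw [← Set.ncard_image_of_injective _ E.injective, h3, Set.ncard_prod, Set.ncard_univ]
  rw [h2]
  have h3 : (Nat.card (I → A) : ℝ) * (Fintype.card Y : ℝ) ^ Fintype.card I =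
      (Fintype.card X : ℝ) ^ Fintype.card I := by exact_mod_cast h1
  push_cast at h3 ⊢
  rw [← h3]
  have h4 := mul_le_mul_of_nonneg_left hG (Nat.cast_nonneg (α := ℝ) (Nat.card (I → A)))
  push_cast at h4
  linarith

end block

section count

variable {I : Type} [DecidableEq I] [Fintype I] {p : ℕ} [Fact p.Prime]

theorem FF_congr {R : Type} [CommRing R] {S : Finset I} {E : I → I → ℕ} {w w' : I → R}
    (h : ∀ k ∈ S, w k = w' k) : FF S E w = FF S E w' := by
  unfold FF
  refine Finset.prod_congr rfl fun k hk => Finset.prod_congr rfl fun l hl => ?_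
  rw [h k hk, h l (Finset.mem_of_mem_erase hl)]

/-- the values -/
theorem count_triple {S : Finset I} {E : I → I → ℕ} {k0 l0 : I} (hk : k0 ∈ S) (hl : l0 ∈ S)
    (hne : k0 ≠ l0) (hodd : Odd (E k0 l0 + E l0 k0)) (hpn : 8 * Fintype.card I + 16 ≤ p) :
    1 / (16 * 2 ^ Fintype.card I) ^ 2 * ((p : ℝ) ^ 3) ^ Fintype.card I ≤
      (({y : I → (Fin 3 → ZMod p) | ¬ IsSquare (FF S E (fun k => y k 1) * FF S E (fun k => y k 2))} :
        Set (I → (Fin 3 → ZMod p))).ncard : ℝ) := by
  classical
  set n := Fintype.card I with hn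
  have hp3 : 3 ≤ p := by omega
  have h1 := count_FF (p := p) (fun u => ¬ IsSquare u)
    (fun u v huv => by
      by_contra hcon
      push Not at hcon
      exact huv (hcon.1.mul hcon.2)) S E hk hl hne hodd hpn
  have h2 := count_FF (p := p) (fun u => IsSquare u ∧ u ≠ 0)
    (fun u v huv => by
      have hu0 : u ≠ 0 := by
        rintro rfl
        exact huv ⟨0, by ring⟩
      have hv0 : v ≠ 0 := by
        rintro rfl
        exact huv ⟨0, by ring⟩
      by_contra hcon
      push Not at hcon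
      have hu : ¬ IsSquare u := fun h => hu0 (hcon.1 h)
      have hv : ¬ IsSquare v := fun h => hv0 (hcon.2 h)
      exact huv (nonsq_mul hp3 hu hv)) S E hk hl hne hodd hpn
  set W1 := Finset.univ.filter (fun w : I → ZMod p => ¬ IsSquare (FF S E w)) with hW1
  set W2 := Finset.univ.filter (fun w : I → ZMod p => IsSquare (FF S E w) ∧ FF S E w ≠ 0) with hW2
  have h3 : Fintype.card (I → ZMod p) * (W1.card * W2.card) ≤
      ({y : I → (Fin 3 → ZMod p) | ¬ IsSquare (FF S E (fun k => y k 1) * FF S E (fun k => y k 2))} :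
        Set (I → (Fin 3 → ZMod p))).ncard := by
    have h4 : ((Finset.univ : Finset (I → ZMod p)) ×ˢ (W1 ×ˢ W2)).card =
        Fintype.card (I → ZMod p) * (W1.card * W2.card) := by
      rw [Finset.card_product, Finset.card_product, Finset.card_univ]
    rw [← h4, ← Set.ncard_coe_finset]
    refine Set.ncard_le_ncard_of_injOn (fun x k => ![x.1 k, x.2.1 k, x.2.2 k]) ?_ ?_ (Set.toFinite _)
    · rintro ⟨a, b, c⟩ hx
      obtain ⟨-, hx2⟩ := Finset.mem_product.1 (Finset.mem_coe.1 hx)
      obtain ⟨hb, hc⟩ := Finset.mem_product.1 hx2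
      have hb' := (Finset.mem_filter.1 hb).2
      have hc' := (Finset.mem_filter.1 hc).2
      show ¬ IsSquare (FF S E b * FF S E c)
      rintro ⟨r, hr⟩
      obtain ⟨⟨s, hs⟩, hs0⟩ := hc'
      apply hb'
      have hs00 : s ≠ 0 := by
        rintro rfl
        apply hs0
        show FF S E c = 0
        rw [hs, mul_zero]
      refine ⟨r / s, ?_⟩
      change FF S E c = s * s at hs
      change FF S E b = r / s * (r / s)
      rw [hs] at hr
      field_simp
      linear_combination hr
    · rintro ⟨a, b, c⟩ - ⟨a', b', c'⟩ - h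
      have h5 : a = a' := by
        funext k
        exact congrFun (congrFun h k) 0
      have h6 : b = b' := by
        funext k
        exact congrFun (congrFun h k) 1
      have h7 : c = c' := by
        funext k
        exact congrFun (congrFun h k) 2
      rw [h5, h6, h7]
  rw [Fintype.card_fun, ZMod.card] at h3
  generalize ({y : I → (Fin 3 → ZMod p) | ¬ IsSquare (FF S E (fun k => y k 1) * FF S E (fun k => y k 2))} :
        Set (I → (Fin 3 → ZMod p))).ncard = cG at h3 ⊢
  have h3' : (p : ℝ) ^ n * ((W1.card : ℝ) * W2.card) ≤ (cG : ℝ) := by exact_mod_cast h3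
  refine le_trans ?_ h3'
  replace h1 : p ^ n ≤ 16 * 2 ^ n * W1.card := by
    rw [hW1]
    convert h1
  replace h2 : p ^ n ≤ 16 * 2 ^ n * W2.card := by
    rw [hW2]
    convert h2
  have h1' : (p : ℝ) ^ n ≤ 16 * 2 ^ n * W1.card := by exact_mod_cast h1
  have h2' : (p : ℝ) ^ n ≤ 16 * 2 ^ n * W2.card := by exact_mod_cast h2
  have h4 : (p : ℝ) ^ n / (16 * 2 ^ n) ≤ W1.card := by
    rw [div_le_iff₀ (by positivity)]
    linarith
  have h5 : (p : ℝ) ^ n / (16 * 2 ^ n) ≤ W2.card := by
    rw [div_le_iff₀ (by positivity)]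
    linarith
  calc 1 / (16 * 2 ^ n) ^ 2 * ((p : ℝ) ^ 3) ^ n
      = (p : ℝ) ^ n * ((p : ℝ) ^ n / (16 * 2 ^ n) * ((p : ℝ) ^ n / (16 * 2 ^ n))) := by
        rw [← pow_mul, mul_comm 3 n, pow_mul]
        field_simp
    _ ≤ _ := by gcongr

/-- the families of the polynomials with a given pair of nodes -/
theorem count_w {S : Finset I} {E : I → I → ℕ} {k0 l0 : I} (hk : k0 ∈ S) (hl : l0 ∈ S)
    (hne : k0 ≠ l0) (hodd : Odd (E k0 l0 + E l0 k0)) (hpn : 8 * Fintype.card I + 16 ≤ p)
    {m : ℕ} (hm : 2 ≤ m) {α β : ZMod p} (hαβ : α ≠ β) :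
    1 / (16 * 2 ^ Fintype.card I) ^ 2 * ((p : ℝ) ^ (m + 1)) ^ Fintype.card I ≤
      (({w : I → (Fin (m + 1) → ZMod p) | ¬ IsSquare (FF S E (fun k => (pol (w k)).eval α) *
        FF S E (fun k => (pol (w k)).eval β))} : Set (I → (Fin (m + 1) → ZMod p))).ncard : ℝ) := by
  have hnode : Function.Injective (![α, β] : Fin 2 → ZMod p) := by
    intro i j h
    fin_cases i <;> fin_cases j
    · rfl
    · exact absurd h hαβ
    · exact absurd h (Ne.symm hαβ)
    · rfl
  obtain ⟨A, e, he⟩ := Pool.Agent.Q308.TW.uniform_vals (p := p) (n := 1) (M := m) hm hnode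
  have h1 := block_count (I := I) _ e he 0
    {y : I → (Fin 3 → ZMod p) | ¬ IsSquare (FF S E (fun k => y k 1) * FF S E (fun k => y k 2))}
    (c := 1 / (16 * 2 ^ Fintype.card I) ^ 2) (by
      have h2 := count_triple hk hl hne hodd hpn
      rw [Fintype.card_fun, ZMod.card, Fintype.card_fin]
      push_cast
      exact h2)
  rw [Fintype.card_fun, ZMod.card, Fintype.card_fin] at h1
  push_cast at h1
  exact h1

/-- the complementary factors -/
theorem count_g {m : ℕ} (hm : 2 ≤ m) {α β : ZMod p} (hαβ : α ≠ β) :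
    1 / 8 * (p : ℝ) ^ (m + 1) ≤
      ({u : Fin (m + 1) → ZMod p | (pol u).eval α ≠ 0 ∧ (pol u).eval β ≠ 0}.ncard : ℝ) := by
  classical
  have hnode : Function.Injective (![α, β] : Fin 2 → ZMod p) := by
    intro i j h
    fin_cases i <;> fin_cases j
    · rfl
    · exact absurd h hαβ
    · exact absurd h (Ne.symm hαβ)
    · rfl
  have h1 : 1 / 8 * (p : ℝ) ^ (2 + 1) ≤
      ({y : Fin (2 + 1) → ZMod p | y 1 ≠ 0 ∧ y 2 ≠ 0}.ncard : ℝ) := by
    have h2 : ((Fintype.piFinset fun _ : Fin (2 + 1) => (Finset.univ.erase (0 : ZMod p)) :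
        Finset (Fin (2 + 1) → ZMod p)) : Set (Fin (2 + 1) → ZMod p)) ⊆
        {y : Fin (2 + 1) → ZMod p | y 1 ≠ 0 ∧ y 2 ≠ 0} := by
      intro y hy
      rw [Finset.mem_coe, Fintype.mem_piFinset] at hy
      exact ⟨(Finset.mem_erase.1 (hy 1)).1, (Finset.mem_erase.1 (hy 2)).1⟩
    have h3 := Set.ncard_le_ncard h2 (Set.toFinite _)
    rw [Set.ncard_coe_finset, Fintype.card_piFinset_const, Finset.card_erase_of_mem
      (Finset.mem_univ _), Finset.card_univ, ZMod.card] at h3
    have h3' : (((p - 1 : ℕ) ^ (2 + 1) : ℕ) : ℝ) ≤ _ := Nat.cast_le.2 h3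
    refine le_trans ?_ h3'
    have hp1 : 1 < p := (Fact.out : p.Prime).one_lt
    rw [Nat.cast_pow, Nat.cast_sub hp1.le]
    have h4 : (2 : ℝ) ≤ p := by exact_mod_cast hp1
    push_cast
    have h5 : ((p : ℝ) / 2) ^ (2 + 1) ≤ ((p : ℝ) - 1) ^ (2 + 1) :=
      pow_le_pow_left₀ (by positivity) (by linarith) _
    refine le_trans (le_of_eq ?_) h5
    rw [div_pow]
    norm_num
    ring
  have h2 := (Pool.Agent.Q308.TW.uniform_vals (n := 1) (M := m) hm hnode).count h1
  rw [Fintype.card_fin] at h2
  exact h2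

end count

end Pool.Agent.Q308.TG
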