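import Pool.Agent.Q308.TG.Blk

/-!
The number of the families of polynomials modulo `p` such that one difference has two simple roots
and a certain product of values at these roots is not a square.
-/

set_option autoImplicit false
set_option linter.unusedSectionVars false

open Polynomial Pool.Agent.Q126.TD

namespace Pool.Agent.Q308.TG

section count

variable {I : Type} [DecidableEq I] [Fintype I] {p : ℕ} [Fact p.Prime]

/-- the good families of vectors -/
def GoodT (p M : ℕ) [Fact p.Prime] (i0 j0 : I) (E : I → I → ℕ) :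
    Set (I → (Fin (M + 2 + 1) → ZMod p)) :=
  {u | ∃ (α β : ZMod p) (g : (ZMod p)[X]), α ≠ β ∧ g.eval α ≠ 0 ∧ g.eval β ≠ 0 ∧
    pol (u i0) - pol (u j0) = (X - C α) * ((X - C β) * g) ∧
    ¬ IsSquare (FF (Finset.univ.erase j0) E (fun k => (pol (u k)).eval α) *
      FF (Finset.univ.erase j0) E (fun k => (pol (u k)).eval β))}

theorem count_T {i0 j0 : I} (hij : i0 ≠ j0) {E : I → I → ℕ} {k0 l0 : I} (hk : k0 ≠ j0) (hl : l0 ≠ j0)
    (hne : k0 ≠ l0) (hodd : Odd (E k0 l0 + E l0 k0)) (hpn : 8 * Fintype.card I + 16 ≤ p)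
    {M : ℕ} (hM : 2 ≤ M) :
    1 / (16 * 2 ^ Fintype.card I) ^ 2 / (16 * (M + 2) ^ 2) *
      ((p : ℝ) ^ (M + 2 + 1)) ^ Fintype.card I ≤ ((GoodT p M i0 j0 E).ncard : ℝ) := by
  classical
  set n := Fintype.card I with hn
  set c : ℝ := 1 / (16 * 2 ^ n) ^ 2 with hc
  have hc0 : 0 < c := by positivity
  set S := (Finset.univ : Finset I).erase j0 with hS
  have hkS : k0 ∈ S := Finset.mem_erase.2 ⟨hk, Finset.mem_univ _⟩
  have hlS : l0 ∈ S := Finset.mem_erase.2 ⟨hl, Finset.mem_univ _⟩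
  have hiS : i0 ∈ S := Finset.mem_erase.2 ⟨hij, Finset.mem_univ _⟩
  let V := Fin (M + 2 + 1) → ZMod p
  let Ag : ZMod p × ZMod p → Finset (Fin (M + 1) → ZMod p) := fun x =>
    Finset.univ.filter (fun u => (pol u).eval x.1 ≠ 0 ∧ (pol u).eval x.2 ≠ 0)
  let W : ZMod p × ZMod p → Finset (I → V) := fun x =>
    Finset.univ.filter (fun w => ¬ IsSquare (FF S E (fun k => (pol (w k)).eval x.1) *
        FF S E (fun k => (pol (w k)).eval x.2)))
  set P : Finset (ZMod p × ZMod p) := (Finset.univ : Finset (ZMod p)).offDiag with hP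
  set s := P.sigma (fun x => Ag x ×ˢ W x) with hs
  have hPne : ∀ x ∈ P, x.1 ≠ x.2 := fun x hx => (Finset.mem_offDiag.1 hx).2.2
  -- the map
  let ft : (Σ _ : ZMod p × ZMod p, (Fin (M + 1) → ZMod p) × (I → V)) → (ZMod p)[X] := fun x =>
    pol (x.2.2 i0) - (X - C x.1.1) * ((X - C x.1.2) * pol x.2.1)
  have hdeg : ∀ x, (ft x).natDegree ≤ M + 2 := by
    intro x
    refine (natDegree_sub_le _ _).trans (max_le (natDegree_pol_le _) ?_)
    refine natDegree_mul_le.trans ?_
    rw [natDegree_X_sub_C]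
    have h2 : ((X - C x.1.2) * pol x.2.1).natDegree ≤ 1 + M := by
      refine natDegree_mul_le.trans ?_
      rw [natDegree_X_sub_C]
      have := natDegree_pol_le x.2.1
      omega
    omega
  let f : (Σ _ : ZMod p × ZMod p, (Fin (M + 1) → ZMod p) × (I → V)) → (I → V) × V := fun x =>
    (Function.update x.2.2 j0 (fun i => (ft x).coeff i), x.2.2 j0)
  have hf1 : ∀ x, ∀ k ∈ S, (f x).1 k = x.2.2 k := by
    intro x k hk
    show Function.update x.2.2 j0 _ k = _
    rw [Function.update_of_ne (Finset.ne_of_mem_erase hk)]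
  have hf2 : ∀ x, pol ((f x).1 j0) = ft x := by
    intro x
    show pol (Function.update x.2.2 j0 _ j0) = _
    rw [Function.update_self]
    exact pol_coeff (hdeg x)
  have hdiff : ∀ x, pol ((f x).1 i0) - pol ((f x).1 j0) =
      (X - C x.1.1) * ((X - C x.1.2) * pol x.2.1) := by
    intro x
    rw [hf2, hf1 x i0 hiS]
    show pol (x.2.2 i0) - (pol (x.2.2 i0) - _) = _
    ring
  have hmem : ∀ x ∈ s, x.1.1 ≠ x.1.2 ∧ (pol x.2.1).eval x.1.1 ≠ 0 ∧ (pol x.2.1).eval x.1.2 ≠ 0 ∧
      ¬ IsSquare (FF S E (fun k => (pol (x.2.2 k)).eval x.1.1) *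
        FF S E (fun k => (pol (x.2.2 k)).eval x.1.2)) := by
    intro x hx
    obtain ⟨h1, h2⟩ := Finset.mem_sigma.1 hx
    obtain ⟨h3, h4⟩ := Finset.mem_product.1 h2
    exact ⟨hPne _ h1, (Finset.mem_filter.1 h3).2.1, (Finset.mem_filter.1 h3).2.2,
      (Finset.mem_filter.1 h4).2⟩
  have hfib : ∀ w ∈ s.image f, (s.filter (fun x => f x = w)).card ≤ (M + 2) ^ 2 := by
    intro w hw
    obtain ⟨x0, hx0, rfl⟩ := Finset.mem_image.1 hw
    set D := pol ((f x0).1 i0) - pol ((f x0).1 j0) with hD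
    have hD0 : D ≠ 0 := by
      rw [hD, hdiff]
      refine mul_ne_zero (X_sub_C_ne_zero _) (mul_ne_zero (X_sub_C_ne_zero _) ?_)
      intro h0
      apply (hmem x0 hx0).2.1
      rw [h0, eval_zero]
    have hDd : D.natDegree ≤ M + 2 :=
      (natDegree_sub_le _ _).trans (max_le (natDegree_pol_le _) (natDegree_pol_le _))
    have h1 : (s.filter (fun x => f x = f x0)).card ≤ (D.roots.toFinset ×ˢ D.roots.toFinset).card := by
      refine Finset.card_le_card_of_injOn (fun x => x.1) ?_ ?_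
      · intro x hx
        obtain ⟨hx1, hx2⟩ := Finset.mem_filter.1 hx
        have hDx : D = (X - C x.1.1) * ((X - C x.1.2) * pol x.2.1) := by
          rw [hD, ← hx2, hdiff]
        rw [Finset.mem_coe, Finset.mem_product, Multiset.mem_toFinset, Multiset.mem_toFinset,
          mem_roots hD0, mem_roots hD0, IsRoot.def, IsRoot.def, hDx]
        constructor
        · rw [eval_mul, eval_sub, eval_X, eval_C, sub_self, zero_mul]
        · rw [eval_mul, eval_mul, eval_sub (X) (C x.1.2), eval_X, eval_C, sub_self, zero_mul, mul_zero]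
      · intro x hx y hy hxy
        obtain ⟨hx1, hx2⟩ := Finset.mem_filter.1 hx
        obtain ⟨hy1, hy2⟩ := Finset.mem_filter.1 hy
        obtain ⟨a, g, w⟩ := x
        obtain ⟨b, g', w'⟩ := y
        have hab : a = b := hxy
        subst hab
        have hff : f ⟨a, g, w⟩ = f ⟨a, g', w'⟩ := hx2.trans hy2.symm
        have h3 : (X - C a.1) * ((X - C a.2) * pol g) = (X - C a.1) * ((X - C a.2) * pol g') := by
          have e1 := hdiff ⟨a, g, w⟩
          have e2 := hdiff ⟨a, g', w'⟩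
          rw [hff] at e1
          exact e1.symm.trans e2
        have h4 : g = g' := pol_injective (mul_left_cancel₀ (X_sub_C_ne_zero _)
          (mul_left_cancel₀ (X_sub_C_ne_zero _) h3))
        have h5 : w = w' := by
          funext k
          by_cases hk : k = j0
          · subst hk
            exact congrArg Prod.snd hff
          · have hkS : k ∈ S := Finset.mem_erase.2 ⟨hk, Finset.mem_univ _⟩
            have e1 := hf1 ⟨a, g, w⟩ k hkS
            have e2 := hf1 ⟨a, g', w'⟩ k hkS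
            rw [hff] at e1
            exact e1.symm.trans e2
        rw [h4, h5]
    refine h1.trans ?_
    rw [Finset.card_product, sq]
    have h2 : D.roots.toFinset.card ≤ M + 2 :=
      (Multiset.toFinset_card_le _).trans ((card_roots' _).trans hDd)
    exact Nat.mul_le_mul h2 h2
  have h1 := Finset.card_le_mul_card_image s ((M + 2) ^ 2) hfib
  have h2 : (s.image f).card ≤ (GoodT p M i0 j0 E).ncard * p ^ (M + 2 + 1) := by
    have h3 : ((GoodT p M i0 j0 E) ×ˢ (Set.univ : Set V)).ncard =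
        (GoodT p M i0 j0 E).ncard * p ^ (M + 2 + 1) := by
      rw [Set.ncard_prod, Set.ncard_univ, Nat.card_eq_fintype_card, Fintype.card_fun, ZMod.card,
        Fintype.card_fin]
    rw [← h3, ← Set.ncard_coe_finset]
    refine Set.ncard_le_ncard ?_ (Set.toFinite _)
    intro w hw
    obtain ⟨x, hx, rfl⟩ := Finset.mem_image.1 (Finset.mem_coe.1 hw)
    obtain ⟨m1, m2, m3, m4⟩ := hmem x hx
    refine ⟨⟨x.1.1, x.1.2, pol x.2.1, m1, m2, m3, hdiff x, ?_⟩, trivial⟩
    have e1 : FF S E (fun k => (pol ((f x).1 k)).eval x.1.1) =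
        FF S E (fun k => (pol (x.2.2 k)).eval x.1.1) :=
      FF_congr fun k hk => by rw [hf1 x k hk]
    have e2 : FF S E (fun k => (pol ((f x).1 k)).eval x.1.2) =
        FF S E (fun k => (pol (x.2.2 k)).eval x.1.2) :=
      FF_congr fun k hk => by rw [hf1 x k hk]
    rw [← hS, e1, e2]
    exact m4
  have hp0 : (0 : ℝ) < p := by exact_mod_cast (Fact.out : p.Prime).pos
  have h3 : s.card = ∑ x ∈ P, (Ag x ×ˢ W x).card := Finset.card_sigma _ _
  have h4 : ∀ x ∈ P, (1 / 8 * (p : ℝ) ^ (M + 1)) * (c * ((p : ℝ) ^ (M + 2 + 1)) ^ n) ≤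
      ((Ag x ×ˢ W x).card : ℝ) := by
    intro x hx
    have h5 := count_g (p := p) hM (hPne x hx)
    have h6 := count_w (p := p) hkS hlS hne hodd hpn (m := M + 2) (by omega) (hPne x hx)
    have h7 : ({u : Fin (M + 1) → ZMod p | (pol u).eval x.1 ≠ 0 ∧ (pol u).eval x.2 ≠ 0}.ncard) =
        (Ag x).card := by
      rw [← Set.ncard_coe_finset]
      congr 1
      ext u
      simp [Ag]
    have h8 : ({w : I → V | ¬ IsSquare (FF S E (fun k => (pol (w k)).eval x.1) *
        FF S E (fun k => (pol (w k)).eval x.2))}.ncard) = (W x).card := by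
      rw [← Set.ncard_coe_finset]
      congr 1
      ext w
      simp [W]
    rw [h7] at h5
    rw [h8] at h6
    rw [Finset.card_product]
    push_cast
    exact mul_le_mul h5 h6 (by positivity) (Nat.cast_nonneg _)
  have h5 : (P.card : ℝ) * ((1 / 8 * (p : ℝ) ^ (M + 1)) * (c * ((p : ℝ) ^ (M + 2 + 1)) ^ n)) ≤
      (s.card : ℝ) := by
    rw [h3, ← nsmul_eq_mul, ← Finset.sum_const]
    push_cast
    exact_mod_cast Finset.sum_le_sum h4
  have h6 : (p : ℝ) ^ 2 / 2 ≤ P.card := by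
    have h7 : P.card = p * p - p := by
      rw [hP, Finset.offDiag_card, Finset.card_univ, ZMod.card]
    have h8 : P.card + p = p * p := by
      rw [h7]
      exact Nat.sub_add_cancel (Nat.le_mul_self p)
    have h9 : (P.card : ℝ) + p = p * p := by exact_mod_cast h8
    have h10 : (2 : ℝ) ≤ p := by exact_mod_cast (Fact.out : p.Prime).two_le
    nlinarith
  have h7 : (s.card : ℝ) ≤ (M + 2) ^ 2 * (((GoodT p M i0 j0 E).ncard : ℝ) * (p : ℝ) ^ (M + 2 + 1)) := by
    have h8 : s.card ≤ (M + 2) ^ 2 * ((GoodT p M i0 j0 E).ncard * p ^ (M + 2 + 1)) :=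
      h1.trans (Nat.mul_le_mul_left _ h2)
    exact_mod_cast h8
  have h8 : (p : ℝ) ^ 2 / 2 * ((1 / 8 * (p : ℝ) ^ (M + 1)) * (c * ((p : ℝ) ^ (M + 2 + 1)) ^ n)) ≤
      (M + 2) ^ 2 * (((GoodT p M i0 j0 E).ncard : ℝ) * (p : ℝ) ^ (M + 2 + 1)) :=
    (mul_le_mul_of_nonneg_right h6 (by positivity)).trans (h5.trans h7)
  have h9 : (p : ℝ) ^ (M + 2 + 1) * (c / 16 * ((p : ℝ) ^ (M + 2 + 1)) ^ n) ≤
      (p : ℝ) ^ (M + 2 + 1) * ((M + 2) ^ 2 * ((GoodT p M i0 j0 E).ncard : ℝ)) := by
    have e1 : (p : ℝ) ^ 2 / 2 * ((1 / 8 * (p : ℝ) ^ (M + 1)) * (c * ((p : ℝ) ^ (M + 2 + 1)) ^ n)) =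
        (p : ℝ) ^ (M + 2 + 1) * (c / 16 * ((p : ℝ) ^ (M + 2 + 1)) ^ n) := by
      generalize ((p : ℝ) ^ (M + 2 + 1)) ^ n = t
      ring
    rw [← e1]
    refine h8.trans (le_of_eq ?_)
    ring
  have h10 := le_of_mul_le_mul_left h9 (by positivity)
  have h11 : (0 : ℝ) < (M + 2) ^ 2 := by positivity
  have e2 : c / (16 * ((M : ℝ) + 2) ^ 2) * ((p : ℝ) ^ (M + 2 + 1)) ^ n =
      (c / 16 * ((p : ℝ) ^ (M + 2 + 1)) ^ n) / (M + 2) ^ 2 := by
    field_simp
  rw [e2, div_le_iff₀ h11]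
  linarith

end count

end Pool.Agent.Q308.TG
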