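import Pool.Agent.Q308.TG.Two

/-!
Counting the tuples for which a product of differences is a square or a nonsquare modulo `p`.
-/

set_option autoImplicit false
set_option linter.unusedSectionVars false

open Polynomial

namespace Pool.Agent.Q308.TG

variable {I : Type} [DecidableEq I]

/-- a product of powers of differences -/
def FF {R : Type} [CommRing R] (S : Finset I) (E : I → I → ℕ) (w : I → R) : R :=
  ∏ k ∈ S, ∏ l ∈ S.erase k, (w k - w l) ^ E k l

theorem FF_split {R : Type} [CommRing R] (S : Finset I) (E : I → I → ℕ) (w : I → R) {k0 l0 : I}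
    (hk : k0 ∈ S) (hl : l0 ∈ S) (hne : k0 ≠ l0) (y z : R) :
    FF S E (Function.update (Function.update w k0 y) l0 z) =
      (y - z) ^ (E k0 l0 + E l0 k0) *
        ((-1) ^ E l0 k0 * ((∏ l ∈ (S.erase k0).erase l0, (y - w l) ^ E k0 l) *
          ∏ l ∈ (S.erase k0).erase l0, (w l - y) ^ E l k0)) *
        (((∏ l ∈ (S.erase k0).erase l0, (z - w l) ^ E l0 l) *
          ∏ l ∈ (S.erase k0).erase l0, (w l - z) ^ E l l0) * FF ((S.erase k0).erase l0) E w) := by
  set u := Function.update (Function.update w k0 y) l0 z with hu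
  set S' := (S.erase k0).erase l0 with hS'
  have uk : u k0 = y := by
    rw [hu, Function.update_of_ne hne, Function.update_self]
  have ul : u l0 = z := by
    rw [hu, Function.update_self]
  have um : ∀ m ∈ S', u m = w m := by
    intro m hm
    obtain ⟨h1, h2⟩ := Finset.mem_erase.1 hm
    obtain ⟨h3, -⟩ := Finset.mem_erase.1 h2
    rw [hu, Function.update_of_ne h1, Function.update_of_ne h3]
  have hl' : l0 ∈ S.erase k0 := Finset.mem_erase.2 ⟨hne.symm, hl⟩
  have hk' : k0 ∈ S.erase l0 := Finset.mem_erase.2 ⟨hne, hk⟩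
  have e1 : ∏ l ∈ S.erase k0, (u k0 - u l) ^ E k0 l =
      (y - z) ^ E k0 l0 * ∏ l ∈ S', (y - w l) ^ E k0 l := by
    rw [← Finset.mul_prod_erase _ _ hl', uk, ul]
    congr 1
    exact Finset.prod_congr rfl fun l hl => by rw [um l hl]
  have e2 : ∏ l ∈ S.erase l0, (u l0 - u l) ^ E l0 l =
      (z - y) ^ E l0 k0 * ∏ l ∈ S', (z - w l) ^ E l0 l := by
    rw [← Finset.mul_prod_erase _ _ hk', uk, ul, Finset.erase_right_comm]
    congr 1
    exact Finset.prod_congr rfl fun l hl => by rw [um l hl]
  have e3 : ∏ k ∈ S', ∏ l ∈ S.erase k, (u k - u l) ^ E k l =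
      (∏ k ∈ S', (w k - y) ^ E k k0) * ((∏ k ∈ S', (w k - z) ^ E k l0) * FF S' E w) := by
    unfold FF
    rw [← Finset.prod_mul_distrib, ← Finset.prod_mul_distrib]
    refine Finset.prod_congr rfl fun k hk2 => ?_
    obtain ⟨h1, h2⟩ := Finset.mem_erase.1 hk2
    obtain ⟨h3, h4⟩ := Finset.mem_erase.1 h2
    have hkk : k0 ∈ S.erase k := Finset.mem_erase.2 ⟨Ne.symm h3, hk⟩
    have hll : l0 ∈ (S.erase k).erase k0 :=
      Finset.mem_erase.2 ⟨hne.symm, Finset.mem_erase.2 ⟨Ne.symm h1, hl⟩⟩
    rw [← Finset.mul_prod_erase _ _ hkk, ← Finset.mul_prod_erase _ _ hll, uk, ul, um k hk2]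
    have e4 : ((S.erase k).erase k0).erase l0 = S'.erase k := by
      ext m
      simp only [hS', Finset.mem_erase]
      tauto
    rw [e4]
    congr 2
    refine Finset.prod_congr rfl fun l hl2 => ?_
    rw [um l (Finset.mem_of_mem_erase hl2)]
  have e0 : FF S E u = (∏ l ∈ S.erase k0, (u k0 - u l) ^ E k0 l) *
      ((∏ l ∈ S.erase l0, (u l0 - u l) ^ E l0 l) *
        ∏ k ∈ S', ∏ l ∈ S.erase k, (u k - u l) ^ E k l) := by
    unfold FF
    have h1 := Finset.mul_prod_erase S (fun k => ∏ l ∈ S.erase k, (u k - u l) ^ E k l) hk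
    have h2 := Finset.mul_prod_erase (S.erase k0)
      (fun k => ∏ l ∈ S.erase k, (u k - u l) ^ E k l) hl'
    rw [← h1, ← h2]
  have e5 : (z - y) ^ E l0 k0 = (-1) ^ E l0 k0 * (y - z) ^ E l0 k0 := by
    rw [← mul_pow]
    congr 1
    ring
  rw [e0, e1, e2, e3, e5, pow_add]
  ring

variable [Fintype I] {p : ℕ} [Fact p.Prime]

open scoped Classical in
/-- the number of the injective tuples -/
theorem card_inj (hpn : 2 * Fintype.card I ≤ p) :
    p ^ Fintype.card I ≤ 2 ^ Fintype.card I *
      (Finset.univ.filter (fun w : I → ZMod p => Function.Injective w)).card := by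
  have h1 : (Finset.univ.filter (fun w : I → ZMod p => Function.Injective w)).card =
      p.descFactorial (Fintype.card I) := by
    rw [← Fintype.card_subtype, Fintype.card_congr (Equiv.subtypeInjectiveEquivEmbedding I (ZMod p)),
      Fintype.card_embedding_eq, ZMod.card]
  rw [h1]
  have h2 := Nat.pow_sub_le_descFactorial p (Fintype.card I)
  calc p ^ Fintype.card I ≤ (2 * (p + 1 - Fintype.card I)) ^ Fintype.card I :=
        Nat.pow_le_pow_left (by omega) _
    _ = 2 ^ Fintype.card I * (p + 1 - Fintype.card I) ^ Fintype.card I := mul_pow _ _ _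
    _ ≤ _ := Nat.mul_le_mul_left _ h2

open scoped Classical in
/-- the number of the tuples for which the product is a square or a nonsquare -/
theorem count_FF (R : ZMod p → Prop) (hR : ∀ u v, ¬ IsSquare (u * v) → R u ∨ R v)
    (S : Finset I) (E : I → I → ℕ) {k0 l0 : I} (hk : k0 ∈ S) (hl : l0 ∈ S) (hne : k0 ≠ l0)
    (hodd : Odd (E k0 l0 + E l0 k0)) (hpn : 8 * Fintype.card I + 16 ≤ p) :
    p ^ Fintype.card I ≤ 16 * 2 ^ Fintype.card I *
      (Finset.univ.filter (fun w : I → ZMod p => R (FF S E w))).card := by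
  set Inj := Finset.univ.filter (fun w : I → ZMod p => Function.Injective w) with hInj
  set W := Finset.univ.filter (fun w : I → ZMod p => R (FF S E w)) with hW
  have hp0 : 0 < p := (Fact.out : p.Prime).pos
  let Q : (I → ZMod p) → Finset (ZMod p × ZMod p) := fun w => Finset.univ.filter
    (fun x => R (FF S E (Function.update (Function.update w k0 x.1) l0 x.2)))
  have hQ : ∀ w ∈ Inj, p ^ 2 ≤ 16 * (Q w).card := by
    intro w hw
    have hwi : Function.Injective w := (Finset.mem_filter.1 hw).2
    set S' := (S.erase k0).erase l0 with hS'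
    have himg : (Finset.univ.image w : Finset (ZMod p)).card ≤ Fintype.card I := by
      refine Finset.card_image_le.trans ?_
      rw [Finset.card_univ]
    have hzero : ∀ (y : ZMod p) (E1 E2 : I → ℕ), y ∉ (Finset.univ.image w : Finset (ZMod p)) →
        (∏ l ∈ S', (y - w l) ^ E1 l) * ∏ l ∈ S', (w l - y) ^ E2 l ≠ 0 := by
      intro y E1 E2 hy
      have hne' : ∀ l, y - w l ≠ 0 := by
        intro l h0
        apply hy
        rw [sub_eq_zero] at h0
        rw [h0]
        exact Finset.mem_image_of_mem _ (Finset.mem_univ _)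
      refine mul_ne_zero (Finset.prod_ne_zero_iff.2 fun l _ => pow_ne_zero _ (hne' l))
        (Finset.prod_ne_zero_iff.2 fun l _ => pow_ne_zero _ ?_)
      rw [← neg_sub]
      exact neg_ne_zero.2 (hne' l)
    have hF0 : FF S' E w ≠ 0 := by
      unfold FF
      refine Finset.prod_ne_zero_iff.2 fun k _ => Finset.prod_ne_zero_iff.2 fun l hl2 =>
        pow_ne_zero _ (sub_ne_zero.2 fun h => ?_)
      exact (Finset.ne_of_mem_erase hl2) (hwi h).symm
    have h1 := two_var (by omega : 3 ≤ p) R hR
      (fun y => (-1) ^ E l0 k0 * ((∏ l ∈ S', (y - w l) ^ E k0 l) * ∏ l ∈ S', (w l - y) ^ E l k0))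
      (fun z => ((∏ l ∈ S', (z - w l) ^ E l0 l) * ∏ l ∈ S', (w l - z) ^ E l l0) * FF S' E w)
      hodd (m := Fintype.card I) ?_ ?_ hpn
    · refine h1.trans (Nat.mul_le_mul_left _ (Finset.card_le_card ?_))
      intro x hx
      refine Finset.mem_filter.2 ⟨Finset.mem_univ _, ?_⟩
      rw [FF_split S E w hk hl hne x.1 x.2]
      exact (Finset.mem_filter.1 hx).2
    · refine (Finset.card_le_card ?_).trans himg
      intro y hy
      by_contra hcon
      exact mul_ne_zero (pow_ne_zero _ (neg_ne_zero.2 one_ne_zero)) (hzero y _ _ hcon)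
        (Finset.mem_filter.1 hy).2
    · refine (Finset.card_le_card ?_).trans himg
      intro y hy
      by_contra hcon
      exact mul_ne_zero (hzero y _ _ hcon) hF0 (Finset.mem_filter.1 hy).2
  have h1 : Inj.card * p ^ 2 ≤ 16 * (Inj.sigma Q).card := by
    rw [Finset.card_sigma, Finset.mul_sum, ← smul_eq_mul, ← Finset.sum_const]
    exact Finset.sum_le_sum hQ
  have h2 : (Inj.sigma Q).card ≤ (W ×ˢ (Finset.univ : Finset (ZMod p × ZMod p))).card := by
    refine Finset.card_le_card_of_injOn (fun x => (Function.update (Function.update x.1 k0 x.2.1) l0 x.2.2,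
      (x.1 k0, x.1 l0))) ?_ ?_
    · intro x hx
      obtain ⟨-, h3⟩ := Finset.mem_sigma.1 (Finset.mem_coe.1 hx)
      exact Finset.mem_coe.2 (Finset.mem_product.2 ⟨Finset.mem_filter.2 ⟨Finset.mem_univ _,
        (Finset.mem_filter.1 h3).2⟩, Finset.mem_univ _⟩)
    · rintro ⟨w, y, z⟩ - ⟨w', y', z'⟩ - h
      obtain ⟨h3, h4⟩ := Prod.mk.inj h
      obtain ⟨h5, h6⟩ := Prod.mk.inj h4
      change w k0 = w' k0 at h5
      change w l0 = w' l0 at h6
      change Function.update (Function.update w k0 y) l0 z =
        Function.update (Function.update w' k0 y') l0 z' at h3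
      have hz : z = z' := by
        have := congrFun h3 l0
        rwa [Function.update_self, Function.update_self] at this
      have hy : y = y' := by
        have := congrFun h3 k0
        rwa [Function.update_of_ne hne, Function.update_self, Function.update_of_ne hne,
          Function.update_self] at this
      have hw : w = w' := by
        funext m
        by_cases hm1 : m = k0
        · rw [hm1, h5]
        · by_cases hm2 : m = l0
          · rw [hm2, h6]
          · have := congrFun h3 m
            rwa [Function.update_of_ne hm2, Function.update_of_ne hm1, Function.update_of_ne hm2,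
              Function.update_of_ne hm1] at this
      rw [hz, hy, hw]
  rw [Finset.card_product, Finset.card_univ, Fintype.card_prod, ZMod.card] at h2
  have h3 : Inj.card * p ^ 2 ≤ (16 * W.card) * p ^ 2 := by
    calc Inj.card * p ^ 2 ≤ 16 * (Inj.sigma Q).card := h1
      _ ≤ 16 * (W.card * (p * p)) := Nat.mul_le_mul_left _ h2
      _ = _ := by ring
  have h4 : Inj.card ≤ 16 * W.card := Nat.le_of_mul_le_mul_right h3 (by positivity)
  have h5 := card_inj (I := I) (p := p) (by omega)
  calc p ^ Fintype.card I ≤ 2 ^ Fintype.card I * Inj.card := h5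
    _ ≤ 2 ^ Fintype.card I * (16 * W.card) := Nat.mul_le_mul_left _ h4
    _ = _ := by ring

end Pool.Agent.Q308.TG
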