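import Pool.Agent.Q308.TG.GoodT

/-!
Almost all families of integer combinations of a spanning family: a product of differences is not a
constant multiple of a square modulo one difference.
-/

set_option autoImplicit false
set_option linter.unusedSectionVars false

open Polynomial Pool.Agent.Q126.TD Pool.Agent.Q308.TC Pool.Agent.TH115.GD Filter Topology

namespace Pool.Agent.Q308.TG

open Pool.Agent.Q308.TW

variable {κ ι : Type} [Fintype κ] [Fintype ι] [DecidableEq ι]

/-- the members of a family of integer combinations -/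
noncomputable def fam {k : Type} [Field k] (b : κ → k[X]) (v : ι × κ → ℤ) (i : ι) : k[X] :=
  comb b (fun j => v (i, j))

theorem FF_map {R R' : Type} [CommRing R] [CommRing R'] (φ : R →+* R') (S : Finset ι)
    (E : ι → ι → ℕ) (w : ι → R) : φ (FF S E w) = FF S E (fun k => φ (w k)) := by
  unfold FF
  simp only [map_prod, map_pow, map_sub]

/-- one exponent matrix -/
theorem one_T {k : Type} [Field k] [CharZero k] (hk : FG k) {M : ℕ} (hM : 2 ≤ M) {b : κ → k[X]}
    (hb : Spans (M + 2) b) {i0 j0 : ι} (hij : i0 ≠ j0) {E : ι → ι → ℕ} {k0 l0 : ι} (hk0 : k0 ≠ j0)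
    (hl0 : l0 ≠ j0) (hne : k0 ≠ l0) (hodd : Odd (E k0 l0 + E l0 k0)) :
    Full {v : ι × κ → ℤ | ∀ (c : k) (z : k[X]), c ≠ 0 →
      ¬ fam b v i0 - fam b v j0 ∣ C c * FF (Finset.univ.erase j0) E (fam b v) - z ^ 2} := by
  classical
  obtain ⟨T, hT⟩ := comb_red hb
  set n := Fintype.card ι with hn
  refine full_of_primes _ (1 / (16 * 2 ^ n) ^ 2 / (16 * (M + 2) ^ 2) : ℝ) (by positivity) ?_
  have hinf := (embed_integral hk T).sdiff (Set.finite_lt_nat (8 * n + 16))
  apply hinf.mono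
  rintro p ⟨⟨hpp, φ, hφ⟩, hp⟩
  have hpn : 8 * n + 16 ≤ p := not_lt.1 hp
  obtain ⟨q, hq, hred⟩ := hT p φ hφ
  obtain ⟨A, e, he⟩ := hq
  have h1 := block_count (I := ι) q e he 0 (GoodT p M i0 j0 E)
    (c := 1 / (16 * 2 ^ n) ^ 2 / (16 * (M + 2) ^ 2)) (by
      have h2 := count_T (p := p) hij hk0 hl0 hne hodd hpn hM
      rw [Fintype.card_fun, ZMod.card, Fintype.card_fin]
      push_cast
      exact h2)
  rw [Fintype.card_fun, ZMod.card] at h1
  push_cast at h1
  refine ⟨hpp.out, {w : ι × κ → ZMod p | (fun i => q (fun j => w (i, j))) ∈ GoodT p M i0 j0 E}, ?_, ?_⟩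
  · have h3 : {w : ι × κ → ZMod p | (fun i => q (fun j => w (i, j))) ∈ GoodT p M i0 j0 E}.ncard =
        {w : ι → κ → ZMod p | (fun i => q (w i)) ∈ GoodT p M i0 j0 E}.ncard := by
      have h4 : (Equiv.curry ι κ (ZMod p)) ''
          {w : ι × κ → ZMod p | (fun i => q (fun j => w (i, j))) ∈ GoodT p M i0 j0 E} =
          {w : ι → κ → ZMod p | (fun i => q (w i)) ∈ GoodT p M i0 j0 E} := by
        ext w
        constructor
        · rintro ⟨w', hw', rfl⟩
          exact hw'
        · intro hw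
          exact ⟨fun x => w x.1 x.2, hw, rfl⟩
      rw [← h4, Set.ncard_image_of_injective _ (Equiv.curry ι κ (ZMod p)).injective]
    rw [h3, Fintype.card_prod, mul_comm (Fintype.card ι), pow_mul]
    exact h1
  rintro v ⟨α, β, g, hαβ, hga, hgb, ha, hb'⟩ c z hc hd
  choose P hP using fun i => hred (fun j => v (i, j))
  have ea : ∀ i, (P i).map (PadicInt.toZMod (p := p)) =
      pol ((fun i => q (fun j => ((v (i, j) : ℤ) : ZMod p))) i) := fun i => (hP i).2.1
  have eQ : ∀ i, (P i).map (algebraMap ℤ_[p] ℚ_[p]) = (fam b v i).map φ := fun i => (hP i).2.2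
  rw [← ea, ← ea, ← Polynomial.map_sub] at ha
  obtain ⟨x, hx1, hx2⟩ := root_lift (p := p) (f := P i0 - P j0) (α := α)
    (g := (X - C β) * g) ha (by
      rw [eval_mul, eval_sub, eval_X, eval_C]
      exact mul_ne_zero (sub_ne_zero.2 hαβ) hga)
  obtain ⟨y, hy1, hy2⟩ := root_lift (p := p) (f := P i0 - P j0) (α := β)
    (g := (X - C α) * g) (by rw [ha]; ring) (by
      rw [eval_mul, eval_sub, eval_X, eval_C]
      exact mul_ne_zero (sub_ne_zero.2 (Ne.symm hαβ)) hgb)
  apply hb'
  set S := (Finset.univ : Finset ι).erase j0 with hS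
  have root : ∀ s : ℤ_[p], (P i0 - P j0).eval s = 0 →
      ((z.map φ).eval (algebraMap ℤ_[p] ℚ_[p] s)) ^ 2 =
        φ c * algebraMap ℤ_[p] ℚ_[p] (FF S E (fun k => (P k).eval s)) := by
    intro s hs
    have h1 : ((fam b v i0 - fam b v j0).map φ).eval (algebraMap ℤ_[p] ℚ_[p] s) = 0 := by
      rw [Polynomial.map_sub, ← eQ, ← eQ, ← Polynomial.map_sub, Polynomial.eval_map_apply, hs,
        map_zero]
    have h2 := eval_dvd (x := algebraMap ℤ_[p] ℚ_[p] s) (Polynomial.map_dvd φ hd)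
    rw [h1, zero_dvd_iff, Polynomial.map_sub, Polynomial.map_mul, Polynomial.map_pow, map_C,
      eval_sub, eval_mul, eval_pow, eval_C] at h2
    have h3 : ((FF S E (fam b v)).map φ).eval (algebraMap ℤ_[p] ℚ_[p] s) =
        algebraMap ℤ_[p] ℚ_[p] (FF S E (fun k => (P k).eval s)) := by
      have e1 := FF_map (Polynomial.mapRingHom φ) S E (fam b v)
      have e2 : (FF S E (fam b v)).map φ = FF S E (fun k => (fam b v k).map φ) := e1
      rw [e2]
      have e3 := FF_map (Polynomial.evalRingHom (algebraMap ℤ_[p] ℚ_[p] s)) S E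
        (fun k => (fam b v k).map φ)
      have e4 : (FF S E (fun k => (fam b v k).map φ)).eval (algebraMap ℤ_[p] ℚ_[p] s) =
          FF S E (fun k => ((fam b v k).map φ).eval (algebraMap ℤ_[p] ℚ_[p] s)) := e3
      rw [e4, FF_map (algebraMap ℤ_[p] ℚ_[p])]
      refine FF_congr fun k _ => ?_
      rw [← eQ, Polynomial.eval_map_apply]
    rw [h3] at h2
    exact (sub_eq_zero.1 h2).symm
  have r1 := root x hx1
  have r2 := root y hy1
  have hφc : φ c ≠ 0 := (map_ne_zero φ).2 hc
  have h3 : IsSquare (algebraMap ℤ_[p] ℚ_[p] (FF S E (fun k => (P k).eval x) *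
      FF S E (fun k => (P k).eval y))) := by
    refine ⟨(z.map φ).eval (algebraMap ℤ_[p] ℚ_[p] x) * (z.map φ).eval (algebraMap ℤ_[p] ℚ_[p] y) /
      φ c, ?_⟩
    rw [map_mul]
    generalize algebraMap ℤ_[p] ℚ_[p] (FF S E (fun k => (P k).eval x)) = A1 at r1 ⊢
    generalize algebraMap ℤ_[p] ℚ_[p] (FF S E (fun k => (P k).eval y)) = A2 at r2 ⊢
    field_simp
    linear_combination (-(φ c * A2)) * r1 -
      ((z.map φ).eval (algebraMap ℤ_[p] ℚ_[p] x)) ^ 2 * r2
  have h4 := sq_red h3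
  rw [map_mul, FF_map, FF_map] at h4
  have e5 : ∀ (s : ℤ_[p]) (γ : ZMod p), PadicInt.toZMod s = γ →
      FF S E (fun k => (PadicInt.toZMod (p := p)) ((P k).eval s)) =
      FF S E (fun k => (pol ((fun i => q (fun j => ((v (i, j) : ℤ) : ZMod p))) k)).eval γ) := by
    intro s γ hs
    refine FF_congr fun k _ => ?_
    rw [← ea, ← hs, Polynomial.eval_map_apply]
  rw [e5 x α hx2, e5 y β hy2] at h4
  exact h4

end Pool.Agent.Q308.TG
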