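import Pool.Agent.Q308.TW.Lin
import Pool.Agent.Q126.TD.Sq

/-!
Counting the values of products of differences which are squares or nonsquares modulo `p`.
-/

set_option autoImplicit false

open Polynomial

namespace Pool.Agent.Q308.TG

section two

variable {p : ℕ} [Fact p.Prime]

open scoped Classical in
theorem card_ns (hp : 3 ≤ p) {s : ZMod p} (hs : s ≠ 0) :
    p ≤ 2 * (Finset.univ.filter (fun t : ZMod p => ¬ IsSquare (s * t))).card + 1 := by
  have h2 : ringChar (ZMod p) ≠ 2 := by
    rw [ZMod.ringChar_zmod_n]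
    omega
  obtain ⟨n₀, hn⟩ := FiniteField.exists_nonsquare h2
  have hn0 : n₀ ≠ 0 := by
    rintro rfl
    exact hn ⟨0, by ring⟩
  set A := Finset.univ.filter (fun t : ZMod p => ¬ IsSquare (s * t)) with hA
  set B := Finset.univ.filter (fun t : ZMod p => IsSquare (s * t)) with hB
  have h3 : (B.erase 0).card ≤ A.card := by
    refine Finset.card_le_card_of_injOn (fun t => n₀ * t) ?_ ?_
    · intro t ht
      obtain ⟨ht0, ht1⟩ := Finset.mem_erase.1 ht
      obtain ⟨r, hr⟩ := (Finset.mem_filter.1 ht1).2
      refine Finset.mem_coe.2 (Finset.mem_filter.2 ⟨Finset.mem_univ _, ?_⟩)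
      rintro ⟨q, hq⟩
      have hr0 : r ≠ 0 := by
        rintro rfl
        rw [mul_zero] at hr
        exact mul_ne_zero hs ht0 hr
      apply hn
      refine ⟨q / r, ?_⟩
      field_simp
      have : s * (n₀ * t) = n₀ * (s * t) := by ring
      rw [this, hr] at hq
      linear_combination hq
    · intro t _ t' _ h
      exact mul_left_cancel₀ hn0 h
  have h4 : B.card + A.card = p := by
    rw [hA, hB, Finset.card_filter_add_card_filter_not, Finset.card_univ, ZMod.card]
  have h5 : B.card - 1 ≤ (B.erase 0).card := Finset.pred_card_le_card_erase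
  omega

open scoped Classical in
theorem card_moebius (hp : 3 ≤ p) {s z z' : ZMod p} (hs : s ≠ 0) (hz : z ≠ z') :
    p ≤ 2 * (Finset.univ.filter (fun y : ZMod p => ¬ IsSquare (s * ((y - z) * (y - z'))))).card + 3 := by
  have h1 := card_ns hp hs
  set A := Finset.univ.filter (fun t : ZMod p => ¬ IsSquare (s * t)) with hA
  have h2 : (A.erase 1).card ≤
      (Finset.univ.filter (fun y : ZMod p => ¬ IsSquare (s * ((y - z) * (y - z'))))).card := by
    have hzz : z - z' ≠ 0 := sub_ne_zero.2 hz
    refine Finset.card_le_card_of_injOn (fun t => (z - t * z') / (1 - t)) ?_ ?_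
    · intro t ht
      obtain ⟨ht1, htA⟩ := Finset.mem_erase.1 ht
      have ht0 : 1 - t ≠ 0 := sub_ne_zero.2 (Ne.symm ht1)
      refine Finset.mem_coe.2 (Finset.mem_filter.2 ⟨Finset.mem_univ _, ?_⟩)
      rintro ⟨q, hq⟩
      apply (Finset.mem_filter.1 htA).2
      refine ⟨q * (1 - t) / (z - z'), ?_⟩
      have e1 : (z - t * z') / (1 - t) - z = t * (z - z') / (1 - t) := by
        field_simp
        ring
      have e2 : (z - t * z') / (1 - t) - z' = (z - z') / (1 - t) := by
        field_simp
        ring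
      change s * (((z - t * z') / (1 - t) - z) * ((z - t * z') / (1 - t) - z')) = q * q at hq
      rw [e1, e2] at hq
      field_simp at hq
      field_simp
      linear_combination hq
    · intro t ht t' ht' h
      obtain ⟨ht1, -⟩ := Finset.mem_erase.1 ht
      obtain ⟨ht1', -⟩ := Finset.mem_erase.1 ht'
      have ht0 : 1 - t ≠ 0 := sub_ne_zero.2 (Ne.symm ht1)
      have ht0' : 1 - t' ≠ 0 := sub_ne_zero.2 (Ne.symm ht1')
      have h' : (z - t * z') / (1 - t) = (z - t' * z') / (1 - t') := h
      rw [div_eq_div_iff ht0 ht0'] at h'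
      have h3 : (z - z') * (t - t') = 0 := by linear_combination h'
      rcases mul_eq_zero.1 h3 with h4 | h4
      · exact absurd h4 hzz
      · exact sub_eq_zero.1 h4
  have h3 : A.card - 1 ≤ (A.erase 1).card := Finset.pred_card_le_card_erase
  omega

theorem nonsq_mul (hp : 3 ≤ p) {u v : ZMod p} (hu : ¬ IsSquare u) (hv : ¬ IsSquare v) :
    IsSquare (u * v) := by
  have h2 : ringChar (ZMod p) ≠ 2 := by
    rw [ZMod.ringChar_zmod_n]
    omega
  have hu0 : u ≠ 0 := by
    rintro rfl
    exact hu ⟨0, by ring⟩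
  have hv0 : v ≠ 0 := by
    rintro rfl
    exact hv ⟨0, by ring⟩
  rw [FiniteField.isSquare_iff h2 (mul_ne_zero hu0 hv0), mul_pow]
  rw [FiniteField.isSquare_iff h2 hu0] at hu
  rw [FiniteField.isSquare_iff h2 hv0] at hv
  rcases FiniteField.pow_dichotomy h2 hu0 with h | h
  · exact absurd h hu
  · rcases FiniteField.pow_dichotomy h2 hv0 with h' | h'
    · exact absurd h' hv
    · rw [h, h']; ring

open scoped Classical in
/-- a two variable count -/
theorem two_var (hp : 3 ≤ p) (R : ZMod p → Prop) (hR : ∀ u v, ¬ IsSquare (u * v) → R u ∨ R v)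
    (f g : ZMod p → ZMod p) {a : ℕ} (ha : Odd a) {m : ℕ}
    (hf : (Finset.univ.filter (fun y => f y = 0)).card ≤ m)
    (hg : (Finset.univ.filter (fun z => g z = 0)).card ≤ m) (hpm : 8 * m + 16 ≤ p) :
    p ^ 2 ≤ 16 * (Finset.univ.filter
      (fun x : ZMod p × ZMod p => R ((x.1 - x.2) ^ a * f x.1 * g x.2))).card := by
  obtain ⟨b, hb⟩ := ha
  let N : ZMod p → ℕ := fun z => (Finset.univ.filter (fun y => R ((y - z) ^ a * f y * g z))).card
  have hsum : (Finset.univ.filter
      (fun x : ZMod p × ZMod p => R ((x.1 - x.2) ^ a * f x.1 * g x.2))).card = ∑ z, N z := by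
    have h1 := Finset.card_eq_sum_card_fiberwise (s := Finset.univ.filter
      (fun x : ZMod p × ZMod p => R ((x.1 - x.2) ^ a * f x.1 * g x.2)))
      (t := (Finset.univ : Finset (ZMod p))) (f := fun x => x.2)
      (fun x _ => Finset.mem_coe.2 (Finset.mem_univ _))
    rw [h1]
    refine Finset.sum_congr rfl fun z _ => ?_
    refine Finset.card_bij (fun x _ => x.1) ?_ ?_ ?_
    · intro x hx
      obtain ⟨h2, h3⟩ := Finset.mem_filter.1 hx
      have h4 := (Finset.mem_filter.1 h2).2
      rw [h3] at h4
      exact Finset.mem_filter.2 ⟨Finset.mem_univ _, h4⟩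
    · intro x hx y hy h
      exact Prod.ext h ((Finset.mem_filter.1 hx).2.trans (Finset.mem_filter.1 hy).2.symm)
    · intro y hy
      exact ⟨(y, z), Finset.mem_filter.2 ⟨Finset.mem_filter.2 ⟨Finset.mem_univ _,
        (Finset.mem_filter.1 hy).2⟩, rfl⟩, rfl⟩
  set Z0 := Finset.univ.filter (fun z => g z ≠ 0) with hZ0
  have hZ0c : p ≤ Z0.card + m := by
    have h1 : (Finset.univ.filter (fun z => g z = 0)).card + Z0.card = p := by
      rw [hZ0, Finset.card_filter_add_card_filter_not, Finset.card_univ, ZMod.card]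
    omega
  -- two values
  have key : ∀ z ∈ Z0, ∀ z' ∈ Z0, z ≠ z' → p ≤ 2 * (N z + N z' + m) + 3 := by
    intro z hz z' hz' hne
    have hgz := (Finset.mem_filter.1 hz).2
    have hgz' := (Finset.mem_filter.1 hz').2
    have h1 := card_moebius hp (mul_ne_zero hgz hgz') hne
    have h2 : Finset.univ.filter (fun y : ZMod p => ¬ IsSquare (g z * g z' * ((y - z) * (y - z')))) ⊆
        (Finset.univ.filter (fun y => R ((y - z) ^ a * f y * g z)) ∪
        Finset.univ.filter (fun y => R ((y - z') ^ a * f y * g z'))) ∪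
        Finset.univ.filter (fun y => f y = 0) := by
      intro y hy
      have h3 := (Finset.mem_filter.1 hy).2
      by_cases hfy : f y = 0
      · exact Finset.mem_union_right _ (Finset.mem_filter.2 ⟨Finset.mem_univ _, hfy⟩)
      · refine Finset.mem_union_left _ ?_
        have h4 : ¬ IsSquare ((y - z) ^ a * f y * g z * ((y - z') ^ a * f y * g z')) := by
          rintro ⟨q, hq⟩
          apply h3
          have h5 : (y - z) * (y - z') ≠ 0 := by
            intro h0
            apply h3
            rw [h0, mul_zero]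
            exact ⟨0, by ring⟩
          refine ⟨q / (((y - z) * (y - z')) ^ b * f y), ?_⟩
          have h6 : ((y - z) * (y - z')) ^ b * f y ≠ 0 := mul_ne_zero (pow_ne_zero _ h5) hfy
          have e : (y - z) ^ a * f y * g z * ((y - z') ^ a * f y * g z') =
              g z * g z' * ((y - z) * (y - z')) * (((y - z) * (y - z')) ^ b * f y) ^ 2 := by
            rw [hb]
            generalize y - z = u1
            generalize y - z' = u2
            ring
          rw [e] at hq
          rw [div_mul_div_comm, eq_div_iff (mul_ne_zero h6 h6)]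
          linear_combination hq
        rcases hR _ _ h4 with h5 | h5
        · exact Finset.mem_union_left _ (Finset.mem_filter.2 ⟨Finset.mem_univ _, h5⟩)
        · exact Finset.mem_union_right _ (Finset.mem_filter.2 ⟨Finset.mem_univ _, h5⟩)
    have h3 := (Finset.card_le_card h2).trans ((Finset.card_union_le _ _).trans
      (Nat.add_le_add_right (Finset.card_union_le _ _) _))
    change _ ≤ N z + N z' + _ at h3
    omega
  set Bad := Z0.filter (fun z => 8 * N z < p) with hBad
  have hBad1 : Bad.card ≤ 1 := by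
    rw [Finset.card_le_one]
    intro z hz z' hz'
    by_contra hne
    obtain ⟨h1, h2⟩ := Finset.mem_filter.1 hz
    obtain ⟨h3, h4⟩ := Finset.mem_filter.1 hz'
    have := key z h1 z' h3 hne
    omega
  have h1 : ∀ z ∈ Z0 \ Bad, p ≤ 8 * N z := by
    intro z hz
    obtain ⟨h2, h3⟩ := Finset.mem_sdiff.1 hz
    by_contra hcon
    exact h3 (Finset.mem_filter.2 ⟨h2, by omega⟩)
  have h2 : (Z0 \ Bad).card * p ≤ ∑ z ∈ Z0 \ Bad, 8 * N z := by
    rw [← smul_eq_mul, ← Finset.sum_const]
    exact Finset.sum_le_sum h1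
  have h3 : ∑ z ∈ Z0 \ Bad, 8 * N z ≤ 8 * ∑ z, N z := by
    rw [Finset.mul_sum]
    exact Finset.sum_le_sum_of_subset (Finset.subset_univ _)
  have h4 : p ≤ (Z0 \ Bad).card + m + 1 := by
    have := Finset.le_card_sdiff Bad Z0
    omega
  rw [hsum]
  have h5 : p ≤ 2 * (Z0 \ Bad).card := by omega
  nlinarith

end two

end Pool.Agent.Q308.TG
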